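import Pool.Agent.N874.TQ.Top
import Pool.Agent.N874.QM.Fld

/-!
# The 2-Selmer group over the extension

Project TQ (helper874), after project QM.
-/

set_option autoImplicit false
set_option linter.all false

open Polynomial IsDedekindDomain NumberField
open Pool.Agent.N783.PQ
open Pool.Agent.N874.PP (Ev Sq1 U0)
open Pool.Agent.N874.PM (Lies ev_down sq_down ev_sq ev_mul)
open Pool.Agent.N874.JM (LocF)
open Pool.Agent.N891.PQ (exists_below not_ev_exp locIm_one ov_scale sq_two)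
open Pool.Agent.N874.QM (S_SIG S_RAM S_LIE ov_val val_le val_le_int val_eq_of ov_down below_unique
  ov_prod val_lt_dvd Parts Arc arc_sq arc_mul arc_sig arc_down arc_top)
open scoped Classical IntermediateField

namespace Pool.Agent.N874.TQ

section abs

variable {L M Ω : Type} [Field L] [NumberField L] [Field M] [NumberField M]
  [Field Ω] [NumberField Ω] [Algebra L Ω] [Algebra M Ω] [IsGalois ℚ M]

theorem selM_abs (H : Parts) {g W : ℕ} {f : ℤ[X]} {θ : L} {S J : Finset ℕ} {s : ℕ → ℤ[X]}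
    (hg : 1 ≤ g) (hc : IsGen g f θ) (hsq : Squarefree (dsc g f)) (hS : GoodS g W S s)
    (hcon : ∀ q ∈ S, Cg q f (X * s q)) (h2i : Irreducible (rd 2 f))
    (hQs : ∀ q ∈ S, ∀ w : HeightOneSpectrum (𝓞 M), Ov q w →
      w.valuation M (q : M) = WithZero.exp (-1 : ℤ) ∧
      Function.Surjective ((Ideal.Quotient.mk w.asIdeal).comp (Int.castRingHom (𝓞 M))))
    (hPr : ∀ p : ℕ, p.Prime → (∃ w : HeightOneSpectrum (𝓞 M), Ov p w ∧
      w.valuation M (p : M) ≠ WithZero.exp (-1 : ℤ)) → Irreducible (rd p f))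
    (hJ : J ⊆ S)
    (hθ : M⟮algebraMap L Ω θ⟯ = ⊤)
    (hmin : minpoly M (algebraMap L Ω θ) = f.map (algebraMap ℤ M))
    (τ₂ : M →+* ℚ_[2]) (ρ₀ : M →+* ℝ)
    {n : ℕ} (hM : Module.finrank ℚ M = 2 ^ n) (hΩ : Module.finrank M Ω = 2 * g + 1)
    (hsel : ∀ α : L, α ≠ 0 → IsSquare (Algebra.norm ℚ α) →
      (∀ 𝔓 : HeightOneSpectrum (𝓞 L), (∀ q ∈ J, ¬ Ov q 𝔓) → Ev 𝔓 α) →
      (∀ q ∈ J, ∀ 𝔓 : HeightOneSpectrum (𝓞 L), Ov q 𝔓 → 𝔓.valuation L θ = 1 →
        U0 𝔓 ((q : L) * θ) α) →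
      (∃ h₀ : ℚ[X], aeval θ h₀ = α ∧ LocIm ℚ_[2] (ov ℚ_[2] f) (oq ℚ_[2] h₀) ∧
        LocIm ℝ (ov ℝ f) (oq ℝ h₀)) → IsSquare α)
    (h : M[X]) (hne : aeval (((∏ q ∈ J, q : ℕ) : Ω) * algebraMap L Ω θ) h ≠ 0)
    (hN : IsSquare (Algebra.norm M (aeval (((∏ q ∈ J, q : ℕ) : Ω) * algebraMap L Ω θ) h)))
    (hloc : ∀ w : HeightOneSpectrum (𝓞 M), LocF (w.adicCompletion M)
      ((f.scaleRoots ((∏ q ∈ J, q : ℕ) : ℤ)).map (algebraMap ℤ M)) h)
    (hr : ∀ ρ : M →+* ℝ, LocIm ℝ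
      (((f.scaleRoots ((∏ q ∈ J, q : ℕ) : ℤ)).map (algebraMap ℤ M)).map ρ) (h.map ρ)) :
    IsSquare (aeval (((∏ q ∈ J, q : ℕ) : Ω) * algebraMap L Ω θ) h) := by
  have hS' : ∀ q ∈ S, q.Prime := fun q hq => (hS q hq).1
  have hD8 : (∏ q ∈ J, q) % 8 = 1 := by
    have : ∀ J' : Finset ℕ, J' ⊆ S → (∏ q ∈ J', q) % 8 = 1 := by
      intro J'
      induction J' using Finset.induction_on with
      | empty => intro _; simp
      | insert a t ha ih =>
        intro hsub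
        rw [Finset.prod_insert ha, Nat.mul_mod, ih ((Finset.subset_insert _ _).trans hsub),
          (hS a (hsub (Finset.mem_insert_self _ _))).2.2.2.1]
    exact this J hJ
  -- the ramified primes and `2`
  let T : Set ℕ := {p | p = 2 ∨ (p.Prime ∧ ∃ w : HeightOneSpectrum (𝓞 M), Ov p w ∧
      w.valuation M (p : M) ≠ WithZero.exp (-1 : ℤ))}
  have hTp : ∀ p ∈ T, p.Prime := by
    rintro p (rfl | h)
    · exact Nat.prime_two
    · exact h.1
  have hTi : ∀ p ∈ T, Irreducible (rd p f) := by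
    rintro p (rfl | h)
    · exact h2i
    · exact hPr p h.1 h.2
  have hcnd := cnd_top (T := T) H.ram H.csq H.lie H.loc1 H.loc2 hg hc hsq hS hcon hθ hQs
    (Or.inl rfl) hJ hloc hne
  have harc := arc_top (θ := algebraMap L Ω θ) H.emb H.sqt hc.mon hc.deg hD8 hloc hr
  have hgen : ∀ y : Ω, ∃ a : M[X], aeval (algebraMap L Ω θ) a = y := by
    intro y
    have h1 := IntermediateField.adjoin_simple_toSubalgebra_of_isAlgebraic
      (Algebra.IsAlgebraic.isAlgebraic (R := M) (algebraMap L Ω θ))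
    rw [hθ, IntermediateField.top_toSubalgebra, Algebra.adjoin_singleton_eq_range_aeval] at h1
    have h2 : y ∈ (aeval (R := M) (algebraMap L Ω θ)).range := by
      rw [← h1]
      exact Algebra.mem_top
    exact h2
  refine H.tow n ℚ L M Ω two_ne_zero hM (by rw [hc.rank]; exact odd_two_mul_add_one g)
    (by rw [hΩ, hc.rank])
    (fun x => Cnd J T (algebraMap L Ω θ) (algebraMap L Ω (aeval θ (derivative f))) x ∧
      Arc M f (algebraMap L Ω θ) x) (fun x hx => ⟨cnd_sq hx, arc_sq hgen x⟩)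
    (fun x y hx hy h h' => ⟨cnd_mul H.cls (fun q hq => ⟨hS' q (hJ hq), ?_⟩)
      (fun q hq 𝔓 h1 h3 => ?_) hx hy h.1 h'.1, arc_mul h.2 h'.2⟩)
    (fun σ x h => ⟨cnd_sig H.sig rfl rfl σ h.1, arc_sig rfl σ h.2⟩)
    (fun x hx hC hN => ?_) _ hne ⟨hcnd, harc⟩ hN
  · have := (hS q (hJ hq)).2.2.2.1
    omega
  · have h4 := (q_top (M := M) H.ram H.csq H.lie hg hc hsq hS hθ (hJ hq)
      (hcon q (hJ hq)) (fun w hw => (hQs q (hJ hq) w hw).1) 𝔓 h1 h3).1
    apply not_ev_exp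
    rw [map_mul, h4, h3, mul_one]
  · obtain ⟨b1, b2⟩ := base_sq (T := T) (fun q hq => hS' q (hJ hq)) hTp
      (fun 𝔓 h1 h3 => by
        obtain ⟨p, hp, hp𝔓⟩ := exists_below 𝔓
        have hpT : p ∉ T := fun hp' => h1 p hp' hp𝔓
        obtain ⟨𝔓', h4, -⟩ := up_prime (M := M) (Ω := Ω) hc hθ hp
          (fun w hw => by
            by_contra hne
            exact hpT (Or.inr ⟨hp, w, hw, hne⟩)) 𝔓 hp𝔓 h3
        exact ⟨𝔓', h4⟩)
      (fun q hq 𝔓 h1 h3 => by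
        have hqS := hJ hq
        obtain ⟨𝔓', h4, w, hw, hwq⟩ := up_prime (M := M) (Ω := Ω) hc hθ (hS' q hqS)
          (fun w hw => (hQs q hqS w hw).1) 𝔓 h1
          (eta_unit H.ram hg hc hsq hS hqS (hcon q hqS) 𝔓 h1 h3)
        exact ⟨𝔓', h4, Pool.Agent.N874.TW.dens3 (K := ℚ) (𝓞 Ω) (𝓞 M) hθ 𝔓' w hw (by rw [h4, h3])
          (dens1 w (hQs q hqS w hwq).1 (hQs q hqS w hwq).2)⟩)
      (fun 𝔮 => val_aeval_le hc 𝔮 _)
      (fun p hp => H.pi g L f θ hc p (hTp p hp) (hTi p hp))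
      (H.ram g L f θ hg hc hsq)
      (H.par g L f θ hc hsq) hx hN hC.1
    exact hsel x hx hN b1 b2 (arc_down hc hmin τ₂ ρ₀ hC.2)

end abs

end Pool.Agent.N874.TQ
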