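import Pool.Agent.N874.TQ.Gen

/-!
# The conditions over the extension

Project TQ (helper874), after project QM.
-/

set_option autoImplicit false
set_option linter.all false

open Polynomial IsDedekindDomain NumberField
open Pool.Agent.N783.PQ
open Pool.Agent.N874.PP (Ev Sq1 U0)
open Pool.Agent.N874.PM (Lies ev_down sq_down ev_sq ev_mul)
open Pool.Agent.N874.JM (LocF)
open Pool.Agent.N891.PQ (exists_below not_ev_exp locIm_one)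
open Pool.Agent.N874.QM (S_SIG S_RAM ov_val val_le val_le_int val_eq_of ov_down below_unique ov_prod)
open scoped Classical IntermediateField

namespace Pool.Agent.N874.TQ

section cond

variable {Ω : Type} [Field Ω] [NumberField Ω]

/-- The conditions at the odd primes. -/
structure Cnd (J : Finset ℕ) (T : Set ℕ) (θ η x : Ω) : Prop where
  ev : ∀ 𝔓 : HeightOneSpectrum (𝓞 Ω), (∀ p ∈ T, ¬ Ov p 𝔓) → (∀ q ∈ J, ¬ Ov q 𝔓) →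
    𝔓.valuation Ω η = 1 → Ev 𝔓 x
  u0 : ∀ q ∈ J, ∀ 𝔓 : HeightOneSpectrum (𝓞 Ω), Ov q 𝔓 → 𝔓.valuation Ω θ = 1 →
    U0 𝔓 ((q : Ω) * θ) x

variable {J : Finset ℕ} {T : Set ℕ} {θ η : Ω}

theorem cnd_sq {x : Ω} (hx : x ≠ 0) : Cnd J T θ η (x ^ 2) where
  ev 𝔓 _ _ _ := ev_sq 𝔓 x
  u0 q _ 𝔓 _ _ := by
    refine ⟨fun _ => ⟨x, ?_⟩, fun h => absurd (ev_sq 𝔓 x) h⟩
    rw [sub_self, map_zero, zero_lt_iff]
    exact (Valuation.ne_zero_iff _).2 (pow_ne_zero _ hx)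

theorem cnd_mul (hCLS : S_CLS) (hJ : ∀ q ∈ J, q.Prime ∧ q ≠ 2)
    (hϖ : ∀ q ∈ J, ∀ 𝔓 : HeightOneSpectrum (𝓞 Ω), Ov q 𝔓 → 𝔓.valuation Ω θ = 1 →
      ¬ Ev 𝔓 ((q : Ω) * θ)) {x y : Ω} (hx : x ≠ 0) (hy : y ≠ 0)
    (h : Cnd J T θ η x) (h' : Cnd J T θ η y) : Cnd J T θ η (x * y) where
  ev 𝔓 h1 h2 h3 := ev_mul (h.ev 𝔓 h1 h2 h3) (h'.ev 𝔓 h1 h2 h3)
  u0 q hq 𝔓 h1 h3 := by
    have h4 := hϖ q hq 𝔓 h1 h3
    have h5 : (q : Ω) * θ ≠ 0 := by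
      intro h0
      apply h4
      rw [h0]
      exact ⟨0, by simp⟩
    exact ((hCLS Ω q 𝔓 _ (hJ q hq).1 (hJ q hq).2 h1 h5 h4 x y hx hy).2).2
      ⟨fun _ => h'.u0 q hq 𝔓 h1 h3, fun _ => h.u0 q hq 𝔓 h1 h3⟩

theorem cnd_sig (hSIG : S_SIG) {L : Type} [Field L] [NumberField L] [Algebra L Ω]
    {θ₀ η₀ : L} (hθ : θ = algebraMap L Ω θ₀) (hη : η = algebraMap L Ω η₀)
    (σ : Ω ≃ₐ[L] Ω) {x : Ω} (h : Cnd J T θ η x) : Cnd J T θ η (σ x) := by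
  have hf : ∀ y : L, σ (algebraMap L Ω y) = algebraMap L Ω y := fun y => σ.commutes y
  have key := hSIG Ω (σ.restrictScalars ℚ)
  have hev : ∀ (𝔓 𝔓' : HeightOneSpectrum (𝓞 Ω)),
      (∀ y : Ω, 𝔓'.valuation Ω y = 𝔓.valuation Ω (σ y)) →
      ∀ y : Ω, Ev 𝔓' y ↔ Ev 𝔓 (σ y) := by
    intro 𝔓 𝔓' hv y
    constructor
    · rintro ⟨z, hz⟩
      exact ⟨σ z, by rw [← hv, ← hv, hz]⟩
    · rintro ⟨z, hz⟩
      refine ⟨σ.symm z, ?_⟩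
      rw [hv, hv, σ.apply_symm_apply, hz]
  have hsq : ∀ (𝔓 𝔓' : HeightOneSpectrum (𝓞 Ω)),
      (∀ y : Ω, 𝔓'.valuation Ω y = 𝔓.valuation Ω (σ y)) →
      ∀ y : Ω, Sq1 𝔓' y → Sq1 𝔓 (σ y) := by
    rintro 𝔓 𝔓' hv y ⟨z, hz⟩
    refine ⟨σ z, ?_⟩
    rw [hv, hv, map_sub, map_pow] at hz
    exact hz
  refine ⟨fun 𝔓 h1 h2 h3 => ?_, fun q hq 𝔓 h1 h2 => ?_⟩
  · obtain ⟨𝔓', hv, hO⟩ := key 𝔓
    have hv' : ∀ y : Ω, 𝔓'.valuation Ω y = 𝔓.valuation Ω (σ y) := hv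
    exact (hev 𝔓 𝔓' hv' x).1 (h.ev 𝔓' (fun p hp hc => h1 p hp ((hO p).1 hc))
      (fun q hq hc => h2 q hq ((hO q).1 hc)) (by rw [hv', hη, hf, ← hη]; exact h3))
  · obtain ⟨𝔓', hv, hO⟩ := key 𝔓
    have hv' : ∀ y : Ω, 𝔓'.valuation Ω y = 𝔓.valuation Ω (σ y) := hv
    have h3 := h.u0 q hq 𝔓' ((hO q).2 h1) (by rw [hv', hθ, hf, ← hθ]; exact h2)
    refine ⟨fun h4 => hsq 𝔓 𝔓' hv' x (h3.1 ((hev 𝔓 𝔓' hv' x).2 h4)), fun h4 => ?_⟩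
    have h5 := hsq 𝔓 𝔓' hv' _ (h3.2 fun h6 => h4 ((hev 𝔓 𝔓' hv' x).1 h6))
    rw [map_mul, map_mul, map_natCast, hθ, hf, ← hθ] at h5
    exact h5

end cond

section base

variable {L Ω : Type} [Field L] [NumberField L] [Field Ω] [NumberField Ω] [Algebra L Ω]

theorem base_sq {θ η : L} {J : Finset ℕ} {T : Set ℕ}
    (hJm : ∀ q ∈ J, q.Prime) (hTm : ∀ p ∈ T, p.Prime)
    (hUR : ∀ 𝔓 : HeightOneSpectrum (𝓞 L), (∀ p ∈ T, ¬ Ov p 𝔓) → 𝔓.valuation L η = 1 →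
      ∃ 𝔓' : HeightOneSpectrum (𝓞 Ω),
      ∀ x : L, 𝔓'.valuation Ω (algebraMap L Ω x) = 𝔓.valuation L x)
    (hSP : ∀ q ∈ J, ∀ 𝔓 : HeightOneSpectrum (𝓞 L), Ov q 𝔓 → 𝔓.valuation L θ = 1 →
      ∃ 𝔓' : HeightOneSpectrum (𝓞 Ω),
      (∀ x : L, 𝔓'.valuation Ω (algebraMap L Ω x) = 𝔓.valuation L x) ∧
      ∀ s : Ω, s ≠ 0 → ∃ s₀ : L, 𝔓'.valuation Ω (s - algebraMap L Ω s₀) < 𝔓'.valuation Ω s)
    (hη : ∀ 𝔓 : HeightOneSpectrum (𝓞 L), 𝔓.valuation L η ≤ 1)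
    (hT : ∀ p ∈ T, ∀ x : L, x ≠ 0 → IsSquare (Algebra.norm ℚ x) →
      ∀ 𝔓 : HeightOneSpectrum (𝓞 L), Ov p 𝔓 → Ev 𝔓 x)
    (hRAM : ∀ p : ℕ, p.Prime → ∀ 𝔓₀ : HeightOneSpectrum (𝓞 L), Ov p 𝔓₀ →
      𝔓₀.valuation L η < 1 → (∃ c : ℤ, 𝔓₀.valuation L (θ - (c : L)) < 1) ∧
      ∀ 𝔓 : HeightOneSpectrum (𝓞 L), Ov p 𝔓 → 𝔓 ≠ 𝔓₀ → 𝔓.valuation L η = 1)
    (hPAR : ∀ p : ℕ, p.Prime → ∀ (𝔓₀ : HeightOneSpectrum (𝓞 L)) (c : ℤ), Ov p 𝔓₀ →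
      𝔓₀.valuation L (θ - (c : L)) < 1 → ∀ x : L, x ≠ 0 → IsSquare (Algebra.norm ℚ x) →
      (∀ 𝔓 : HeightOneSpectrum (𝓞 L), Ov p 𝔓 → 𝔓 ≠ 𝔓₀ → Ev 𝔓 x) → Ev 𝔓₀ x)
    {x : L} (hx : x ≠ 0) (hN : IsSquare (Algebra.norm ℚ x))
    (hC : Cnd J T (algebraMap L Ω θ) (algebraMap L Ω η) (algebraMap L Ω x)) :
    (∀ 𝔓 : HeightOneSpectrum (𝓞 L), (∀ q ∈ J, ¬ Ov q 𝔓) → Ev 𝔓 x) ∧
      (∀ q ∈ J, ∀ 𝔓 : HeightOneSpectrum (𝓞 L), Ov q 𝔓 → 𝔓.valuation L θ = 1 →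
        U0 𝔓 ((q : L) * θ) x) := by
  have key : ∀ 𝔓 : HeightOneSpectrum (𝓞 L), (∀ p ∈ T, ¬ Ov p 𝔓) → (∀ q ∈ J, ¬ Ov q 𝔓) →
      𝔓.valuation L η = 1 → Ev 𝔓 x := by
    intro 𝔓 h1 h2 h3
    obtain ⟨𝔓', hv⟩ := hUR 𝔓 h1 h3
    rw [← ev_down hv]
    exact hC.ev 𝔓' (fun p hpT h => h1 p hpT ((ov_down hv p).1 h))
      (fun q hq h => h2 q hq ((ov_down hv q).1 h)) (by rw [hv]; exact h3)
  refine ⟨fun 𝔓 h𝔓 => ?_, fun q hq 𝔓 h1 h2 => ?_⟩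
  · by_cases hP : ∃ p ∈ T, Ov p 𝔓
    · obtain ⟨p, hpT, hp𝔓⟩ := hP
      exact hT p hpT x hx hN 𝔓 hp𝔓
    · push_neg at hP
      by_cases h1 : 𝔓.valuation L η = 1
      · exact key 𝔓 hP h𝔓 h1
      · obtain ⟨p, hpp, hp𝔓⟩ := exists_below 𝔓
        obtain ⟨⟨c, hc⟩, huniq⟩ := hRAM p hpp 𝔓 hp𝔓 (lt_of_le_of_ne (hη 𝔓) h1)
        refine hPAR p hpp 𝔓 c hp𝔓 hc x hx hN fun 𝔮 hq hne => ?_
        refine key 𝔮 (fun p' hp' h => ?_) (fun q' hq' h => ?_) (huniq 𝔮 hq hne)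
        · have := below_unique (hTm p' hp') hpp h hq
          exact hP p' hp' (this ▸ hp𝔓)
        · have := below_unique (hJm q' hq') hpp h hq
          exact h𝔓 q' hq' (this ▸ hp𝔓)
  · obtain ⟨𝔓', hv, hd⟩ := hSP q hq 𝔓 h1 h2
    have hq' : Ov q 𝔓' := (ov_down hv q).2 h1
    have h3 := hC.u0 q hq 𝔓' hq' (by rw [hv]; exact h2)
    refine ⟨fun h4 => sq_down hv hd (h3.1 ((ev_down hv x).2 h4)), fun h4 => ?_⟩
    have h5 := h3.2 fun h6 => h4 ((ev_down hv x).1 h6)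
    have e : algebraMap L Ω x * ((q : Ω) * algebraMap L Ω θ) =
        algebraMap L Ω (x * ((q : L) * θ)) := by
      rw [map_mul, map_mul, map_natCast]
    rw [e] at h5
    exact sq_down hv hd h5

end base

/-! ### The primes which do not divide `f'(θ)` -/

theorem theta_int {g : ℕ} {L : Type} [Field L] [NumberField L] {f : ℤ[X]} {θ : L}
    (hc : IsGen g f θ) : IsIntegral ℤ θ := ⟨f, hc.mon, by rw [← aeval_def]; exact hc.root⟩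

theorem val_aeval_le {g : ℕ} {L : Type} [Field L] [NumberField L] {f : ℤ[X]} {θ : L}
    (hc : IsGen g f θ) (𝔓 : HeightOneSpectrum (𝓞 L)) (p : ℤ[X]) :
    𝔓.valuation L (aeval θ p) ≤ 1 := by
  have hint : IsIntegral ℤ (aeval θ p) :=
    IsIntegral.of_mem_of_fg _ (theta_int hc).fg_adjoin_singleton _
      (by
        rw [Algebra.adjoin_singleton_eq_range_aeval]
        exact ⟨p, rfl⟩)
  have e : (aeval θ p) = algebraMap (𝓞 L) L ⟨_, hint⟩ := rfl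
  rw [e]
  exact 𝔓.valuation_le_one _

/-- At the large prime over `q ∈ S` the element `f'(θ)` is a unit. -/
theorem eta_unit (hRAM : S_RAM) {g W : ℕ} {L : Type} [Field L] [NumberField L] {f : ℤ[X]} {θ : L}
    {S : Finset ℕ} {s : ℕ → ℤ[X]} (hg : 1 ≤ g) (hc : IsGen g f θ)
    (hsq : Squarefree (dsc g f)) (hS : GoodS g W S s) {q : ℕ} (hq : q ∈ S)
    (hcon : Cg q f (X * s q)) (𝔓 : HeightOneSpectrum (𝓞 L)) (h1 : Ov q 𝔓)
    (h2 : 𝔓.valuation L θ = 1) :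
    𝔓.valuation L (aeval θ (derivative f)) = 1 := by
  have hle := val_aeval_le hc 𝔓 (derivative f)
  have hqp := (hS q hq).1
  by_contra hne
  obtain ⟨⟨c, hcθ⟩, -⟩ := hRAM g L f θ hg hc hsq q hqp 𝔓 h1 (lt_of_le_of_ne hle hne)
  obtain ⟨y, hy⟩ := (IsIntegralClosure.isIntegral_iff (R := ℤ) (A := 𝓞 L)).1 (theta_int hc)
  haveI := 𝔓.isPrime
  set φ : 𝓞 L →+* 𝓞 L ⧸ 𝔓.asIdeal := Ideal.Quotient.mk 𝔓.asIdeal with hφ
  set ψ : ℤ →+* 𝓞 L ⧸ 𝔓.asIdeal := φ.comp (Int.castRingHom (𝓞 L)) with hψ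
  have hψQ : ψ (q : ℤ) = 0 := by
    rw [hψ, RingHom.comp_apply, hφ, Ideal.Quotient.eq_zero_iff_mem, eq_intCast, Int.cast_natCast]
    exact h1
  have hyc : φ y = ψ c := by
    rw [hψ, RingHom.comp_apply, hφ, Ideal.Quotient.eq,
      ← HeightOneSpectrum.valuation_lt_one_iff_mem (K := L)]
    change 𝔓.valuation L (algebraMap (𝓞 L) L (y - Int.castRingHom (𝓞 L) c)) < 1
    rw [map_sub, eq_intCast, map_intCast, hy]
    exact hcθ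
  have hy0 : φ y ≠ 0 := by
    intro h0
    rw [hφ, Ideal.Quotient.eq_zero_iff_mem,
      ← HeightOneSpectrum.valuation_lt_one_iff_mem (K := L)] at h0
    change 𝔓.valuation L (algebraMap (𝓞 L) L y) < 1 at h0
    rw [hy, h2] at h0
    exact lt_irrefl _ h0
  have hfy : eval₂ (Int.castRingHom (𝓞 L)) y f = 0 := by
    apply IsFractionRing.injective (𝓞 L) L
    have e1 : (algebraMap (𝓞 L) L).comp (Int.castRingHom (𝓞 L)) = algebraMap ℤ L :=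
      RingHom.ext_int _ _
    rw [map_zero, hom_eval₂, hy, e1, ← aeval_def]
    exact hc.root
  have hfy' : eval₂ ψ (φ y) f = 0 := by
    rw [hψ, ← hom_eval₂, hfy, map_zero]
  have hmap : f.map ψ = (X * s q).map ψ := by
    ext j
    rw [coeff_map, coeff_map, ← sub_eq_zero, ← map_sub]
    obtain ⟨d, hd⟩ := hcon j
    rw [hd, map_mul, hψQ, zero_mul]
  have h3 : eval₂ ψ (φ y) (X * s q) = 0 := by
    rw [← eval_map, ← hmap, eval_map, hfy']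
  rw [eval₂_mul, eval₂_X] at h3
  have h4 : eval₂ ψ (φ y) (s q) = 0 := (mul_eq_zero.1 h3).resolve_left hy0
  rw [hyc, eval₂_at_apply] at h4
  have h5 : (q : ℤ) ∣ (s q).eval c := by
    by_contra hnd
    obtain ⟨a, b, hab⟩ := ((Nat.prime_iff_prime_int.1 hqp).coprime_iff_not_dvd).2 hnd
    have h6 := congrArg ψ hab
    rw [map_add, map_mul, map_mul, hψQ, h4, mul_zero, mul_zero, add_zero, map_one] at h6
    exact zero_ne_one h6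
  haveI : Fact q.Prime := ⟨hqp⟩
  obtain ⟨-, -, -, -, hmon, hdeg', -, hirr⟩ := hS q hq
  have hroot : (rd q (s q)).IsRoot (c : ZMod q) := by
    rw [IsRoot, rd, eval_map]
    have h7 : (c : ZMod q) = Int.castRingHom (ZMod q) c := rfl
    rw [h7, eval₂_at_apply]
    exact (ZMod.intCast_zmod_eq_zero_iff_dvd _ _).2 h5
  have hdeg := degree_eq_one_of_irreducible_of_root hirr hroot
  rw [rd, hmon.degree_map, degree_eq_natDegree hmon.ne_zero, hdeg'] at hdeg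
  have : 2 * g = 1 := by exact_mod_cast hdeg
  omega

section up

variable {L M Ω : Type} [Field L] [NumberField L] [Field M] [NumberField M]
  [Field Ω] [NumberField Ω] [Algebra L Ω] [Algebra M Ω]

/-- The primes over `p` at which `f'(θ)` is a unit are unramified in the compositum. -/
theorem up_prime {g : ℕ} {f : ℤ[X]} {θ : L} (hc : IsGen g f θ)
    (hθ : M⟮algebraMap L Ω θ⟯ = ⊤) {p : ℕ} (hp : p.Prime)
    (hun : ∀ w : HeightOneSpectrum (𝓞 M), Ov p w → w.valuation M (p : M) = WithZero.exp (-1 : ℤ))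
    (𝔓 : HeightOneSpectrum (𝓞 L)) (h1 : Ov p 𝔓)
    (h2 : 𝔓.valuation L (aeval θ (derivative f)) = 1) :
    ∃ 𝔓' : HeightOneSpectrum (𝓞 Ω),
      (∀ x : L, 𝔓'.valuation Ω (algebraMap L Ω x) = 𝔓.valuation L x) ∧
      ∃ w : HeightOneSpectrum (𝓞 M),
        (∀ x : M, 𝔓'.valuation Ω (algebraMap M Ω x) = w.valuation M x) ∧ Ov p w := by
  obtain ⟨𝔓', e, he⟩ := exists_over Ω 𝔓
  have hroot : aeval (algebraMap L Ω θ) f = 0 := by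
    rw [aeval_algebraMap_apply, hc.root, map_zero]
  have hder : aeval (algebraMap L Ω θ) (derivative f) =
      algebraMap L Ω (aeval θ (derivative f)) := by
    rw [aeval_algebraMap_apply]
  obtain ⟨w, hw⟩ := unr_top (F := M) (F' := Ω) hc.mon hroot hθ 𝔓' (by
    rw [hder, he, h2, one_pow])
  have hP𝔓 : 𝔓.valuation L (p : L) < 1 := (ov_val p 𝔓).1 h1
  have e0 : e ≠ 0 := by
    rintro rfl
    obtain ⟨p₁, hp₁, a3⟩ := exists_below 𝔓'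
    have h3 := (ov_val p₁ 𝔓').1 a3
    rw [← map_natCast (algebraMap L Ω), he, pow_zero] at h3
    exact lt_irrefl _ h3
  have hwp : Ov p w := by
    rw [ov_val, ← hw, map_natCast, ← map_natCast (algebraMap L Ω), he]
    exact pow_lt_one' hP𝔓 e0
  have h4 := hun w hwp
  rw [← hw, map_natCast, ← map_natCast (algebraMap L Ω), he] at h4
  have h5 := Pool.Agent.N874.TW.exp_pow h4
  subst h5
  exact ⟨𝔓', fun x => by rw [he, pow_one], w, hw, hwp⟩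

end up

end Pool.Agent.N874.TQ
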