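import Pool.Agent.N222.QM.UR
import Pool.Agent.N874.QM.Cnd
import Pool.Agent.N874.TW.Gen

/-!
# Unramified extensions and complete splitting without generators: number fields

Project TQ (helper874).
-/

set_option autoImplicit false
set_option linter.all false

open Polynomial IsDedekindDomain NumberField
open Pool.Agent.N783.PQ
open scoped Classical IntermediateField

namespace Pool.Agent.N874.TQ

section gen

variable {F F' : Type} [Field F] [NumberField F] [Field F'] [NumberField F'] [Algebra F F']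

/-- The primes at which `f'(θ)` is a unit are unramified. -/
theorem unr_top {f : ℤ[X]} {θ : F'}
    (hmon : f.Monic) (hroot : aeval θ f = 0) (htop : F⟮θ⟯ = ⊤) (𝔓 : HeightOneSpectrum (𝓞 F'))
    (h3 : 𝔓.valuation F' (aeval θ (derivative f)) = 1) :
    ∃ w : HeightOneSpectrum (𝓞 F),
      ∀ x : F, 𝔓.valuation F' (algebraMap F F' x) = w.valuation F x := by
  have hinj : Function.Injective (algebraMap (𝓞 F) (𝓞 F')) :=
    FaithfulSMul.algebraMap_injective _ _
  have t7 : Algebra.IsIntegral (𝓞 F) (𝓞 F') := inferInstance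
  have t6 : IsIntegralClosure (𝓞 F') (𝓞 F) F' := inferInstance
  have hp0 : 𝔓.asIdeal.under (𝓞 F) ≠ ⊥ := by
    intro h0
    exact 𝔓.ne_bot (Ideal.eq_bot_of_comap_eq_bot h0)
  let v : HeightOneSpectrum (𝓞 F) := ⟨𝔓.asIdeal.under (𝓞 F), inferInstance, hp0⟩
  have hl : 𝔓.asIdeal.LiesOver v.asIdeal := ⟨rfl⟩
  have hint : IsIntegral ℤ θ := ⟨f, hmon, by rw [← aeval_def]; exact hroot⟩
  obtain ⟨y, hy⟩ := (IsIntegralClosure.isIntegral_iff (R := ℤ) (A := 𝓞 F')).1 hint
  have h1F : IsIntegral F θ := hint.tower_top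
  haveI : FiniteDimensional F F' := by
    have h2 : FiniteDimensional F F⟮θ⟯ := IntermediateField.adjoin.finiteDimensional h1F
    rw [htop] at h2
    exact Module.Finite.equiv (IntermediateField.topEquiv (F := F) (E := F')).toLinearEquiv
  have hadj : Algebra.adjoin F {algebraMap (𝓞 F') F' y} = ⊤ := by
    have h2 := IntermediateField.adjoin_simple_toSubalgebra_of_isAlgebraic h1F.isAlgebraic
    rw [hy, ← h2, htop, IntermediateField.top_toSubalgebra]
  refine ⟨v, fun x => Pool.Agent.N222.QM.UR.core (𝓞 F) F F' (𝓞 F') y hadj 𝔓 ?_ v x⟩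
  intro hmem
  have : FaithfulSMul (𝓞 F) (𝓞 F') := (faithfulSMul_iff_algebraMap_injective _ _).2 hinj
  have : Module.IsTorsionFree (𝓞 F) (𝓞 F') := inferInstance
  have hgy : aeval y f = 0 := by
    apply IsFractionRing.injective (𝓞 F') F'
    rw [map_zero, ← Polynomial.aeval_algebraMap_apply, hy]
    exact hroot
  have hint' : IsIntegral (𝓞 F) y := IsIntegral.tower_top (R := ℤ) ⟨f, hmon, hgy⟩
  have hdvd : minpoly (𝓞 F) y ∣ f.map (algebraMap ℤ (𝓞 F)) := by
    apply minpoly.isIntegrallyClosed_dvd hint'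
    rw [aeval_map_algebraMap]
    exact hgy
  obtain ⟨q, hq⟩ := hdvd
  have h1 : aeval y (derivative f) = aeval y (derivative (minpoly (𝓞 F) y)) * aeval y q := by
    have h2 := congrArg (fun p : (𝓞 F)[X] => aeval y (derivative p)) hq
    simp only [derivative_mul, map_add, map_mul, minpoly.aeval, zero_mul, add_zero] at h2
    rw [← h2, derivative_map, aeval_map_algebraMap]
  have h2 : aeval y (derivative f) ∈ 𝔓.asIdeal := by
    rw [h1]
    exact Ideal.mul_mem_right _ _ hmem
  have h4 : 𝔓.valuation F' (algebraMap (𝓞 F') F' (aeval y (derivative f))) < 1 := by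
    rw [HeightOneSpectrum.valuation_lt_one_iff_mem]
    exact h2
  rw [← Polynomial.aeval_algebraMap_apply, hy, h3] at h4
  exact lt_irrefl _ h4

/-- A prime over a given prime, with the ramification index. -/
theorem exists_over (F' : Type) [Field F'] [NumberField F'] [Algebra F F']
    (v : HeightOneSpectrum (𝓞 F)) :
    ∃ (𝔓 : HeightOneSpectrum (𝓞 F')) (e : ℕ), ∀ x : F, 𝔓.valuation F' (algebraMap F F' x) =
      v.valuation F x ^ e := by
  have hinj : Function.Injective (algebraMap (𝓞 F) (𝓞 F')) :=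
    FaithfulSMul.algebraMap_injective _ _
  have t7 : Algebra.IsIntegral (𝓞 F) (𝓞 F') := inferInstance
  obtain ⟨Q, -, hQp, hQ⟩ := Ideal.exists_ideal_over_prime_of_isIntegral (S := 𝓞 F') v.asIdeal ⊥
    (by
      intro x hx
      have h1 : algebraMap (𝓞 F) (𝓞 F') x = 0 := by simpa using hx
      have h2 : x = 0 := hinj (by rw [h1, map_zero])
      rw [h2]
      exact zero_mem _)
  have hQ0 : Q ≠ ⊥ := by
    rintro rfl
    apply v.ne_bot
    rw [← hQ]
    exact (RingHom.injective_iff_ker_eq_bot _).1 hinj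
  let P : HeightOneSpectrum (𝓞 F') := ⟨Q, hQp, hQ0⟩
  have hl : P.asIdeal.LiesOver v.asIdeal := ⟨hQ.symm⟩
  exact ⟨P, _, fun x => (HeightOneSpectrum.valuation_liesOver F' v P x).symm⟩

end gen

/-- Complete splitting: approximation by rational numbers. -/
theorem dens1 {M : Type} [Field M] [NumberField M] {q : ℕ} (w : HeightOneSpectrum (𝓞 M))
    (h1 : w.valuation M (q : M) = WithZero.exp (-1 : ℤ))
    (h2 : Function.Surjective ((Ideal.Quotient.mk w.asIdeal).comp (Int.castRingHom (𝓞 M)))) (s : M)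
    (hs : s ≠ 0) : ∃ s₀ : ℚ, w.valuation M (s - algebraMap ℚ M s₀) < w.valuation M s := by
  have hQ0 : (q : M) ≠ 0 := by
    intro h0
    rw [h0, map_zero] at h1
    exact WithZero.exp_ne_zero h1.symm
  obtain ⟨m, hm⟩ : ∃ m : ℤ, w.valuation M s = WithZero.exp m :=
    ⟨WithZero.log _, (WithZero.exp_log ((Valuation.ne_zero_iff _).2 hs)).symm⟩
  set u : M := s * (q : M) ^ m with hu
  have hwu : w.valuation M u = 1 := by
    rw [hu, map_mul, map_zpow₀, h1, hm, ← WithZero.exp_zsmul, ← WithZero.exp_add]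
    simp
  obtain ⟨a, ha⟩ := w.exists_valuation_sub_lt_of_integer hwu.le 1
  rw [Units.val_one] at ha
  obtain ⟨c, hc⟩ := h2 (Ideal.Quotient.mk _ a)
  have hca : w.valuation M ((c : M) - algebraMap (𝓞 M) M a) < 1 := by
    rw [← map_intCast (algebraMap (𝓞 M) M), ← map_sub,
      HeightOneSpectrum.valuation_lt_one_iff_mem]
    have := Ideal.Quotient.eq.1 hc
    rwa [eq_intCast] at this
  have huc : w.valuation M (u - (c : M)) < 1 := by
    have e : u - (c : M) =
        - ((algebraMap (𝓞 M) M a - u) + ((c : M) - algebraMap (𝓞 M) M a)) := by ring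
    rw [e, Valuation.map_neg]
    exact (Valuation.map_add _ _ _).trans_lt (max_lt ha hca)
  have hQm : (q : M) ^ m ≠ 0 := zpow_ne_zero _ hQ0
  refine ⟨(c : ℚ) * ((q : ℚ) ^ m)⁻¹, ?_⟩
  have e1 : s - algebraMap ℚ M ((c : ℚ) * ((q : ℚ) ^ m)⁻¹) =
      (u - (c : M)) * ((q : M) ^ m)⁻¹ := by
    rw [map_mul, map_inv₀, map_zpow₀, map_natCast, map_intCast, hu, sub_mul, mul_assoc,
      mul_inv_cancel₀ hQm, mul_one]
  have e2 : s = u * ((q : M) ^ m)⁻¹ := by
    rw [hu, mul_assoc, mul_inv_cancel₀ hQm, mul_one]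
  rw [e1]
  conv_rhs => rw [e2]
  rw [map_mul, map_mul, hwu]
  refine (mul_lt_mul_iff_left₀ ?_).2 huc
  rw [zero_lt_iff]
  exact (Valuation.ne_zero_iff _).2 (inv_ne_zero hQm)

end Pool.Agent.N874.TQ
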