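import Pool.Agent.N874.TQ.Cnd
import Pool.Agent.N874.QM.Top2

/-!
# The conditions for elements which are locally in the image, over the extension

Project TQ (helper874), after project QM.
-/

set_option autoImplicit false
set_option linter.all false

open Polynomial IsDedekindDomain NumberField
open Pool.Agent.N783.PQ
open Pool.Agent.N874.PP (Ev Sq1 U0)
open Pool.Agent.N874.PM (Lies ev_down sq_down ev_sq ev_mul)
open Pool.Agent.N874.JM (LocF)
open Pool.Agent.N891.PQ (exists_below not_ev_exp locIm_one ov_scale sq_two)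
open Pool.Agent.N874.QM (S_SIG S_RAM S_LIE ov_val val_le val_le_int val_eq_of ov_down below_unique
  ov_prod val_lt_dvd)
open scoped Classical IntermediateField

namespace Pool.Agent.N874.TQ

section top

variable {L M Ω : Type} [Field L] [NumberField L] [Field M] [NumberField M]
  [Field Ω] [NumberField Ω] [Algebra L Ω] [Algebra M Ω]

/-- Irreducibility modulo `w`. -/
theorem irr_top {q : ℕ} (hq : q.Prime) (w : HeightOneSpectrum (𝓞 M))
    (hs : Function.Surjective ((Ideal.Quotient.mk w.asIdeal).comp (Int.castRingHom (𝓞 M))))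
    (h1 : Ov q w) {h : ℤ[X]} (hirr : Irreducible (rd q h)) :
    Irreducible ((h.map (Int.castRingHom (𝓞 M))).map (Ideal.Quotient.mk w.asIdeal)) := by
  have hker : Ideal.span {(q : ℤ)} = RingHom.ker ((Ideal.Quotient.mk w.asIdeal).comp
      (Int.castRingHom (𝓞 M))) := by
    haveI : (Ideal.span {(q : ℤ)}).IsMaximal :=
      PrincipalIdealRing.isMaximal_of_irreducible (Nat.prime_iff_prime_int.1 hq).irreducible
    refine Ideal.IsMaximal.eq_of_le this ?_ ?_
    · haveI := Ideal.Quotient.nontrivial_iff.2 w.isPrime.ne_top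
      exact RingHom.ker_ne_top _
    · rw [Ideal.span_le, Set.singleton_subset_iff, SetLike.mem_coe, RingHom.mem_ker,
        RingHom.comp_apply, Ideal.Quotient.eq_zero_iff_mem]
      rw [eq_intCast, Int.cast_natCast]
      exact h1
  let φ : ZMod q ≃+* (𝓞 M ⧸ w.asIdeal) :=
    (Int.quotientSpanNatEquivZMod q).symm.trans
      ((Ideal.quotEquivOfEq hker).trans (RingHom.quotientKerEquivOfSurjective hs))
  have e : (h.map (Int.castRingHom (𝓞 M))).map (Ideal.Quotient.mk w.asIdeal) =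
      Polynomial.mapEquiv φ (rd q h) := by
    rw [Polynomial.mapEquiv_apply, Polynomial.map_map, rd, Polynomial.map_map]
    congr 1
    exact RingHom.ext_int _ _
  rw [e]
  exact (MulEquiv.irreducible_iff (Polynomial.mapEquiv φ)).2 hirr

/-- The prime below a prime over `q` at which `θ` is a unit. -/
theorem q_top (hRAM : S_RAM) (hCSQ : S_CSQ) (hLIE : S_LIE) {g W : ℕ} {f : ℤ[X]} {θ : L}
    {S : Finset ℕ} {s : ℕ → ℤ[X]} (hg : 1 ≤ g) (hc : IsGen g f θ)
    (hsq : Squarefree (dsc g f)) (hS : GoodS g W S s) (hθ : M⟮algebraMap L Ω θ⟯ = ⊤)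
    {q : ℕ} (hq : q ∈ S) (hcon : Cg q f (X * s q))
    (hun : ∀ w : HeightOneSpectrum (𝓞 M), Ov q w → w.valuation M (q : M) = WithZero.exp (-1 : ℤ))
    (𝔓 : HeightOneSpectrum (𝓞 Ω)) (h1 : Ov q 𝔓)
    (h2 : 𝔓.valuation Ω (algebraMap L Ω θ) = 1) :
    𝔓.valuation Ω (q : Ω) = WithZero.exp (-1 : ℤ) ∧
    (∀ c : ℤ, ¬ (q : ℤ) ∣ c → Sq1 𝔓 (c : Ω)) := by
  obtain ⟨𝔭, hl, hO⟩ := hLIE L Ω 𝔓
  have h1' : Ov q 𝔭 := (hO q).2 h1
  have hqp := (hS q hq).1
  have hθle : 𝔭.valuation L θ ≤ 1 := by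
    have := val_aeval_le hc 𝔭 X
    rwa [aeval_X] at this
  have h2' : 𝔭.valuation L θ = 1 := by
    by_contra hne
    have := hl.lt θ (lt_of_le_of_ne hθle hne)
    rw [h2] at this
    exact lt_irrefl _ this
  have hη := eta_unit hRAM hg hc hsq hS hq hcon 𝔭 h1' h2'
  have hη' : 𝔓.valuation Ω (algebraMap L Ω (aeval θ (derivative f))) = 1 := by
    refine le_antisymm (hl.le _ hη.le) ?_
    have h3 := hl.le (aeval θ (derivative f))⁻¹ (by
      rw [map_inv₀, hη, inv_one])
    rw [map_inv₀, map_inv₀] at h3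
    exact (inv_le_one₀ (by
      rw [zero_lt_iff, Valuation.ne_zero_iff, Ne, map_eq_zero]
      intro h0
      rw [h0, map_zero] at hη
      exact zero_ne_one hη)).1 h3
  have hroot : aeval (algebraMap L Ω θ) f = 0 := by
    rw [aeval_algebraMap_apply, hc.root, map_zero]
  have hder : aeval (algebraMap L Ω θ) (derivative f) =
      algebraMap L Ω (aeval θ (derivative f)) := by
    rw [aeval_algebraMap_apply]
  obtain ⟨w, hw⟩ := unr_top (F := M) (F' := Ω) hc.mon hroot hθ 𝔓 (by rw [hder]; exact hη')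
  have hwQ : Ov q w := (ov_down hw q).1 h1
  refine ⟨?_, fun c hcq => ?_⟩
  · rw [← map_natCast (algebraMap M Ω), hw]
    exact hun w hwQ
  · obtain ⟨z, hz⟩ := (hCSQ g W L f θ S s hg hc hsq hS q hq hcon 𝔭 h1' h2').1 c hcq
    have h5 : 𝔓.valuation Ω (c : Ω) = 1 := by
      refine le_antisymm (val_le_int c 𝔓) ?_
      by_contra hlt
      rw [not_le] at hlt
      obtain ⟨a, b, hab⟩ := ((Nat.prime_iff_prime_int.1 hqp).coprime_iff_not_dvd).2 hcq
      have h6 : 𝔓.valuation Ω ((a * q + b * c : ℤ) : Ω) < 1 := by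
        push_cast
        refine lt_of_le_of_lt (Valuation.map_add _ _ _) (max_lt ?_ ?_)
        · rw [map_mul]
          refine lt_of_le_of_lt (mul_le_mul' (val_le_int a 𝔓) le_rfl) ?_
          rw [one_mul]
          exact (ov_val q 𝔓).1 h1
        · rw [map_mul]
          refine lt_of_le_of_lt (mul_le_mul' (val_le_int b 𝔓) le_rfl) ?_
          rw [one_mul]
          exact hlt
      rw [hab, Int.cast_one, map_one] at h6
      exact lt_irrefl _ h6
    refine ⟨algebraMap L Ω z, ?_⟩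
    rw [h5, ← map_intCast (algebraMap L Ω) c, ← map_pow, ← map_sub]
    exact hl.lt _ (lt_of_lt_of_le hz (val_le_int c 𝔭))

theorem cnd_top (hRAM : S_RAM) (hCSQ : S_CSQ) (hLIE : S_LIE)
    (hLOC1 : Pool.Agent.N874.JM.S_LOC1) (hLOC2 : Pool.Agent.N874.JM.S_LOC2) {g W : ℕ}
    {f : ℤ[X]} {θ : L} {S J : Finset ℕ} {T : Set ℕ} {s : ℕ → ℤ[X]}
    (hg : 1 ≤ g) (hc : IsGen g f θ) (hsq : Squarefree (dsc g f)) (hS : GoodS g W S s)
    (hcon : ∀ q ∈ S, Cg q f (X * s q)) (hθ : M⟮algebraMap L Ω θ⟯ = ⊤)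
    (hQs : ∀ q ∈ S, ∀ w : HeightOneSpectrum (𝓞 M), Ov q w →
      w.valuation M (q : M) = WithZero.exp (-1 : ℤ) ∧
      Function.Surjective ((Ideal.Quotient.mk w.asIdeal).comp (Int.castRingHom (𝓞 M))))
    (h2T : 2 ∈ T) (hJ : J ⊆ S) {h : M[X]}
    (hloc : ∀ w : HeightOneSpectrum (𝓞 M), LocF (w.adicCompletion M)
      ((f.scaleRoots ((∏ q ∈ J, q : ℕ) : ℤ)).map (algebraMap ℤ M)) h)
    (h0 : aeval (((∏ q ∈ J, q : ℕ) : Ω) * algebraMap L Ω θ) h ≠ 0) :
    Cnd J T (algebraMap L Ω θ)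
      (algebraMap L Ω (aeval θ (derivative f)))
      (aeval (((∏ q ∈ J, q : ℕ) : Ω) * algebraMap L Ω θ) h) := by
  have hS' : ∀ q ∈ S, q.Prime := fun q hq => (hS q hq).1
  have hmon : (f.map (algebraMap ℤ M)).Monic := hc.mon.map _
  have hdeg : (f.map (algebraMap ℤ M)).natDegree = 2 * g + 1 := by
    rw [hc.mon.natDegree_map, hc.deg]
  have hsc : ∀ D : ℕ, (f.scaleRoots (D : ℤ)).map (algebraMap ℤ M) =
      (f.map (algebraMap ℤ M)).scaleRoots (D : M) := by
    intro D
    rw [map_scaleRoots]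
    · rw [eq_intCast, Int.cast_natCast]
    · rw [hc.mon.leadingCoeff, map_one]
      exact one_ne_zero
  have hroot : aeval (algebraMap L Ω θ) (f.map (algebraMap ℤ M)) = 0 := by
    rw [aeval_map_algebraMap, aeval_algebraMap_apply, hc.root, map_zero]
  have hder : aeval (algebraMap L Ω θ) (derivative (f.map (algebraMap ℤ M))) =
      algebraMap L Ω (aeval θ (derivative f)) := by
    rw [derivative_map, aeval_map_algebraMap, aeval_algebraMap_apply]
  refine ⟨fun 𝔓 h1 h2 h3 => ?_, fun q hq 𝔓 h𝔓 h3 => ?_⟩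
  · obtain ⟨w, hw, hO⟩ := hLIE M Ω 𝔓
    have v2 : w.valuation M 2 = 1 := by
      have := val_eq_of 2 w fun h => h1 2 h2T ((hO 2).1 h)
      rwa [Nat.cast_ofNat] at this
    have hD : w.valuation M ((∏ q ∈ J, q : ℕ) : M) = 1 := by
      refine val_eq_of _ w fun h => ?_
      obtain ⟨q, hq, h'⟩ := ov_prod h
      exact h2 q hq ((hO q).1 h')
    have hl := hloc w
    rw [hsc] at hl
    have e3 : algebraMap M Ω ((∏ q ∈ J, q : ℕ) : M) = ((∏ q ∈ J, q : ℕ) : Ω) :=
      map_natCast (algebraMap M Ω) _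
    have h4 := hLOC1 M Ω (𝓞 M) (𝓞 Ω) w 𝔓 hw v2 (f.map (algebraMap ℤ M)) h
      ((∏ q ∈ J, q : ℕ) : M) (algebraMap L Ω θ) hmon (by rw [hdeg]; exact odd_two_mul_add_one g)
      (fun i => by rw [coeff_map, eq_intCast]; exact val_le_int _ w) hroot
      (by rw [hder]; exact h3) hD hl (by rw [e3]; exact h0)
    rw [e3] at h4
    exact h4
  · have hqS := hJ hq
    have hqp := hS' q hqS
    obtain ⟨w, hw, hO⟩ := hLIE M Ω 𝔓
    have hqw : Ov q w := (hO q).2 h𝔓
    have v2 : w.valuation M 2 = 1 := by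
      have := val_eq_of 2 w fun h => by
        have h' := below_unique hqp Nat.prime_two hqw h
        have h8 := (hS q hqS).2.2.2.1
        omega
      rwa [Nat.cast_ofNat] at this
    haveI : Finite (𝓞 M ⧸ w.asIdeal) := Ideal.finiteQuotientOfFreeOfNeBot _ w.ne_bot
    haveI : Finite (𝓞 Ω ⧸ 𝔓.asIdeal) := Ideal.finiteQuotientOfFreeOfNeBot _ 𝔓.ne_bot
    obtain ⟨h5, h6⟩ := q_top hRAM hCSQ hLIE hg hc hsq hS hθ hqS (hcon q hqS)
      (fun w hw => (hQs q hqS w hw).1) 𝔓 h𝔓 h3
    have hprod : (∏ p ∈ J, p) = q * ∏ p ∈ J.erase q, p := (Finset.mul_prod_erase J id hq).symm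
    have hnd : ¬ q ∣ ∏ p ∈ J.erase q, p := by
      intro hd
      obtain ⟨p, hp, hqp'⟩ := (hqp.prime.dvd_finset_prod_iff _).1 hd
      have hp' := Finset.mem_erase.1 hp
      exact hp'.1 (((Nat.prime_dvd_prime_iff_eq hqp (hS' p (hJ hp'.2))).1 hqp').symm)
    have hD' : w.valuation M ((∏ p ∈ J.erase q, p : ℕ) : M) = 1 := by
      refine val_eq_of _ w fun h => ?_
      obtain ⟨p, hp, hp'⟩ := ov_prod h
      have hpS := hJ (Finset.mem_of_mem_erase hp)
      exact Finset.ne_of_mem_erase hp (below_unique (hS' p hpS) hqp hp' hqw)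
    have hl := hloc w
    rw [hsc, hprod, Nat.cast_mul] at hl
    have e3 : algebraMap M Ω ((q : M) * ((∏ p ∈ J.erase q, p : ℕ) : M)) =
        ((∏ p ∈ J, p : ℕ) : Ω) := by
      rw [hprod, Nat.cast_mul, map_mul, map_natCast, map_natCast]
    have hsm : (s q).Monic := (hS q hqS).2.2.2.2.1
    have hsd : (s q).natDegree = 2 * g := (hS q hqS).2.2.2.2.2.1
    have hnd' : ¬ (q : ℤ) ∣ ((∏ p ∈ J.erase q, p : ℕ) : ℤ) := fun h =>
      hnd (Int.natCast_dvd_natCast.1 h)
    have h7 := hLOC2 M Ω (𝓞 M) (𝓞 Ω) w 𝔓 hw v2 g (f.map (algebraMap ℤ M)) h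
      ((s q).map (Int.castRingHom (𝓞 M))) (q : M)
      ((∏ p ∈ J.erase q, p : ℕ) : M) (algebraMap L Ω θ) hg hmon hdeg
      (hsm.map _) (by rw [hsm.natDegree_map, hsd])
      (irr_top hqp w (hQs q hqS w hqw).2 hqw (hS q hqS).2.2.2.2.2.2.2)
      (fun j => by
        have e : (f.map (algebraMap ℤ M)).coeff j - algebraMap (𝓞 M) M ((X * (s q).map
            (Int.castRingHom (𝓞 M))).coeff j) = ((f.coeff j - (X * s q).coeff j : ℤ) : M) := by
          have e1 : (X * (s q).map (Int.castRingHom (𝓞 M))) =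
              (X * s q).map (Int.castRingHom (𝓞 M)) := by
            rw [Polynomial.map_mul, map_X]
          rw [e1, coeff_map, coeff_map, eq_intCast, eq_intCast, map_intCast]
          push_cast
          ring
        rw [e]
        exact val_lt_dvd hqw (hcon q hqS j)) hroot h3
      (by rw [map_natCast]; exact h5) hD'
      (by
        have := h6 (-1) (fun h => by
          have h8 : (q : ℤ) ∣ 1 := (dvd_neg.1 h)
          have h9 : q = 1 := by
            have := Int.natCast_dvd_natCast.1 (by simpa using h8 : (q : ℤ) ∣ ((1 : ℕ) : ℤ))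
            exact Nat.dvd_one.1 this
          exact hqp.one_lt.ne' h9)
        rwa [Int.cast_neg, Int.cast_one] at this)
      (by
        rw [map_natCast]
        have := h6 _ hnd'
        rwa [Int.cast_natCast] at this) hl
      (by rw [e3]; exact h0)
    rw [e3, map_natCast] at h7
    exact h7

end top

end Pool.Agent.N874.TQ
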